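import Mathlib
import Pool.Agent.W66.GE

set_option autoImplicit false

/-!
# Two values at the same index: the window

The numbers `x = e ^ t α ^ p + g p` and `ρ e ^ t α ^ p + g₂ p` are sieved together. The ratio `ρ` is a
badly approximable number.
-/

namespace Pool.Agent.U606.PL

open Finset MeasureTheory Filter Topology
open Pool.Agent.W66 (no_mid_prime NN_bounds exp_small large_smooth_count)
open Pool.Agent.W66X (ysh measurable_ysh pert8 exp_ysh exp_consts)
open Pool.Agent.H305R2 (roughPart NN ff measurable_NN measurable_ff ff_nonneg ff_le_one ZZ ZZ_nonneg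
  ZZ_le_exp integral_ind integral_ind_le log_nat_tendsto)
open Pool.Agent.H447R2.ML (Sh sh_of)
open Pool.Agent.W66V (good measurableSet_good ratio_primorial size_exp err_bound main_bound
  joint_sift_log corr_lin Z32 Z32_nonneg)

open Classical in
/-- the sieve bound in one window, same index -/
theorem same_window {α κ C A ρ : ℝ} (hα : 1 < α) (hκ0 : 0 ≤ κ) (hκ : κ < α) {g g2 : ℕ → ℝ}
    (hg : ∀ p, |g p| ≤ C * κ ^ p) (hg2 : ∀ p, |g2 p| ≤ C * κ ^ p) (hA : 1 ≤ A) (hρ : 1 ≤ ρ)
    (hdio : ∀ a b : ℕ, 1 ≤ a → 1 ≤ b → 1 ≤ |(a : ℝ) - b * ρ| * (A * (a + b)))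
    (b0 : ℝ) : ∃ K : ℝ, 0 < K ∧ ∀ᶠ p : ℕ in atTop, ∀ Y : ℝ,
      Real.log α * p + (b0 - 1 / 2) ≤ Y →
      ∫ y in Set.Ioc Y (Y + 1), (if good α p y ∧ good α p
        (Real.log (ρ * Real.exp y + (g2 p - ρ * g p))) then (1 : ℝ) else 0) ≤
        K * (Real.log p / p) ^ 2 := by
  have hα0 : 0 < α := by linarith
  set L := Real.log α with hL
  have hLpos : 0 < L := Real.log_pos hα
  have hρ0 : 0 < ρ := by linarith
  have hA0 : 0 < A := by linarith
  obtain ⟨C1, hC1, hrat⟩ := ratio_primorial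
  obtain ⟨P1, hP1⟩ := eventually_atTop.1 hrat
  have hpert := pert8 hα0 hκ0 hκ hg (b0 - 1) 8
  obtain ⟨P2, hP2⟩ := eventually_atTop.1 hpert
  have hpert2 := pert8 hα0 hκ0 hκ hg2 (b0 - 1) 8
  obtain ⟨P3, hP3⟩ := eventually_atTop.1 hpert2
  have hsm := exp_small (c := 17 * L / 64) (by positivity)
  have hlarge : ∀ᶠ p : ℕ in atTop, (|b0| + 4) * 64 / (47 * L) < p :=
    tendsto_natCast_atTop_atTop.eventually_gt_atTop _
  set a := (Z32 + 2) ^ 2 * Real.exp (-(b0 - 1 / 2) / 2) with ha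
  have hZ0 := Z32_nonneg
  have ha0 : 0 < a := by positivity
  have hsA : 0 ≤ Real.sqrt A := Real.sqrt_nonneg _
  refine ⟨4 * (256 * C1 / L) ^ 2 + Real.sqrt A * a, by positivity, ?_⟩
  filter_upwards [hsm, hlarge, eventually_ge_atTop P1, eventually_ge_atTop P2, eventually_ge_atTop P3,
    eventually_ge_atTop 2] with p hsmp hpl hpP1 hpP2 hpP3 hp2 Y hY
  have hp2' : (2 : ℝ) ≤ p := by exact_mod_cast hp2
  have hp0 : (0 : ℝ) < p := by linarith
  have hb0abs := neg_abs_le b0
  have hb0abs' := le_abs_self b0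
  have hbn := abs_nonneg b0
  rw [div_lt_iff₀ (by positivity)] at hpl
  obtain ⟨M, hM0, hMl, hMr⟩ := hP1 p hpP1
  set κ' := g2 p - ρ * g p with hκ'
  set E0 := Real.exp (L * p + (b0 - 1)) with hE0
  have hE0pos : 0 < E0 := Real.exp_pos _
  have hkb : |κ'| ≤ ρ * E0 / 4 := by
    have h1 := hP2 p hpP2
    have h2 := hP3 p hpP3
    push_cast at h1 h2
    have h2' : |g2 p| ≤ ρ * E0 / 8 := by
      have : E0 ≤ ρ * E0 := by nlinarith
      linarith
    have h4 : ρ * |g p| ≤ ρ * (E0 / 8) := mul_le_mul_of_nonneg_left (by linarith) hρ0.le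
    calc |κ'| ≤ |g2 p| + |ρ * g p| := abs_sub _ _
      _ = |g2 p| + ρ * |g p| := by rw [abs_mul, abs_of_pos hρ0]
      _ ≤ _ := by linarith
  have hEY : E0 ≤ Real.exp Y := Real.exp_le_exp.2 (by linarith)
  have hY0 : 0 ≤ Y := by
    have : (|b0| + 4) * 64 < p * (47 * L) := hpl
    have h1 : 0 < L * p := by positivity
    linarith
  have hX1 : 1 ≤ Real.exp Y := Real.one_le_exp hY0
  -- the sieve level
  set R := ⌊Real.exp (L * p / 64)⌋₊ with hR
  have hexp1 : 1 ≤ Real.exp (L * p / 64) := Real.one_le_exp (by positivity)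
  have hR1 : 1 ≤ R := by rw [hR, Nat.one_le_floor_iff]; exact hexp1
  have hRle : (R : ℝ) ≤ Real.exp (L * p / 64) := Nat.floor_le (Real.exp_pos _).le
  have hRgt : Real.exp (L * p / 64) ≤ R + 1 := (Nat.lt_floor_add_one _).le
  set ε := (((R ^ 2 : ℕ) : ℝ) * (Z32 + 2)) ^ 2 *
      Real.sqrt (A * ((R ^ 2 : ℕ) : ℝ) ^ 3 / Real.exp Y) with hε
  have hε0 : 0 ≤ ε := by positivity
  set f : ℝ → ℝ := fun y => if good α p y ∧ good α p (Real.log (ρ * Real.exp y + κ')) then (1 : ℝ) else 0 with hf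
  have hmeas : Measurable f := by
    refine Measurable.ite ?_ measurable_const measurable_const
    refine (measurableSet_good α p).inter ?_
    have h1 : Measurable (fun y : ℝ => Real.log (ρ * Real.exp y + κ')) :=
      Real.measurable_log.comp ((Real.measurable_exp.const_mul _).add_const _)
    exact h1 (measurableSet_good α p)
  obtain ⟨J, hJ0, hJ1, hJ2⟩ := joint_sift_log (R := R) (M := M) hR1 hM0 (ε := ε) (Y := Y) hε0
    (ψ := fun x => ρ * x + κ') (by fun_prop)
    (fun D E hD hD2 hE hE2 => corr_lin (Q := R ^ 2) (A := A) (β := ρ) (κ := κ') (X := Real.exp Y)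
      (Nat.one_le_pow _ _ hR1) hA hρ hX1 (fun a b ha hb => hdio a b ha hb) hD hD2 hE hE2)
    (f := f)
    (by
      refine Measure.integrableOn_of_bounded (M := 1) (by simp) hmeas.aestronglyMeasurable ?_
      refine Eventually.of_forall fun y => ?_
      simp only [hf]
      split_ifs <;> simp)
    (fun y _ => by simp only [hf]; split_ifs <;> norm_num)
    (by
      intro y hy hfy
      have hgd : good α p y ∧ good α p (Real.log (ρ * Real.exp y + κ')) := by
        by_contra hc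
        simp only [hf] at hfy
        rw [if_neg hc] at hfy
        exact lt_irrefl _ hfy
      obtain ⟨⟨g1, g2'⟩, g3, g4⟩ := hgd
      have hyY : Real.exp Y < Real.exp y := Real.exp_lt_exp.2 hy.1
      have hρy : Real.exp y ≤ ρ * Real.exp y := by nlinarith [Real.exp_pos y]
      have hpos : 3 / 4 * (ρ * Real.exp y) ≤ ρ * Real.exp y + κ' := by
        have h1 := (abs_le.1 hkb).1
        have h2 : ρ * E0 ≤ ρ * Real.exp y := mul_le_mul_of_nonneg_left (by linarith) hρ0.le
        linarith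
      have hψ0 : 0 < ρ * Real.exp y + κ' := by
        have := mul_pos hρ0 (Real.exp_pos y)
        linarith
      obtain ⟨n1, n2⟩ := NN_bounds y
      obtain ⟨n3, n4⟩ := NN_bounds (Real.log (ρ * Real.exp y + κ'))
      rw [Real.exp_log hψ0] at n3 n4
      have hsz := size_exp (u := L * p / 64 + L * p / 4) (v := Y) (by positivity) (by linarith)
      refine ⟨NN y, NN (Real.log (ρ * Real.exp y + κ')), n1, n2, n3, n4, fun l hl hlR hlM => ?_⟩
      have hql := hMl l hl hlM
      have hlz : (l : ℝ) ≤ Real.exp (L * p / 64) := by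
        have : (l : ℝ) ≤ R := by exact_mod_cast hlR
        linarith
      constructor
      · refine no_mid_prime g1 g2' ?_ hl hql hlz
        rw [← Real.exp_add]
        linarith [Real.exp_pos Y]
      · refine no_mid_prime g3 g4 ?_ hl hql hlz
        rw [← Real.exp_add]
        linarith)
  refine hJ2.trans ?_
  have hm := main_bound (q := p) hJ0 hC1 hLpos hp2 (by omega) (by omega) hRgt hMr hJ1
  have he := err_bound (R := R) (Z := Z32) (δ := L) (L := L) (a := a) (c := b0 - 1 / 2) (Y := Y) (A := 1)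
    (p := p) (h := 0) le_rfl (by simp) hRle (Nat.zero_le _) (by linarith) hZ0 ha
  have he1 : (R : ℝ) ^ 8 * ε = Real.sqrt A * ((R : ℝ) ^ 8 * ((((R ^ 2 : ℕ) : ℝ) * (Z32 + 2)) ^ 2 *
      Real.sqrt ((1 : ℝ) ^ 0 * ((R ^ 2 : ℕ) : ℝ) ^ 3 / Real.exp Y))) := by
    rw [hε, pow_zero, one_mul, mul_div_assoc, Real.sqrt_mul hA0.le]
    ring
  have he2 : (R : ℝ) ^ 8 * ε ≤ Real.sqrt A * a * (Real.log p / p) ^ 2 := by
    rw [he1, mul_assoc]
    exact mul_le_mul_of_nonneg_left (he.trans (mul_le_mul_of_nonneg_left hsmp ha0.le)) hsA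
  calc 4 / J ^ 2 + (R : ℝ) ^ 8 * ε ≤ 4 * (256 * C1 / L) ^ 2 * (Real.log p / p) ^ 2 +
        Real.sqrt A * a * (Real.log p / p) ^ 2 := add_le_add hm he2
    _ = _ := by ring

end Pool.Agent.U606.PL
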