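import Mathlib
import Pool.Agent.U606.PL.Pair
import Pool.Agent.TH888.R.Base

set_option autoImplicit false

/-!
# Two values at the same index: finitely many, and a tail bound
-/

namespace Pool.Agent.U606.PL

open Finset MeasureTheory Filter Topology
open Pool.Agent.W66X (ysh measurable_ysh pert8 exp_ysh ae_of_exp')
open Pool.Agent.H305R2 (roughPart NN ff measurable_NN measurable_ff ff_nonneg ff_le_one)
open Pool.Agent.H447R2.ML (ff_eq_floor)
open Pool.Agent.TH888.R (ae_windows)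

/-! ### the series `∑ (log n / n) ^ 2` -/

/-- minus the primitive of `(log x / x) ^ 2` -/
noncomputable def FF (x : ℝ) : ℝ := ((Real.log x) ^ 2 + 2 * Real.log x + 2) / x

lemma hasDerivAt_FF {x : ℝ} (hx : 0 < x) : HasDerivAt FF (-(Real.log x / x) ^ 2) x := by
  have h1 := Real.hasDerivAt_log hx.ne'
  have h2 : HasDerivAt (fun x => (Real.log x) ^ 2 + 2 * Real.log x + 2)
      (2 * Real.log x * x⁻¹ + 2 * x⁻¹) x :=
    (((h1.pow 2).add (h1.const_mul 2)).add_const (2 : ℝ)).congr_deriv (by norm_num)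
  have h3 := h2.div (hasDerivAt_id x) hx.ne'
  have e : (-(Real.log x / x) ^ 2) = ((2 * Real.log x * x⁻¹ + 2 * x⁻¹) * id x -
      ((Real.log x) ^ 2 + 2 * Real.log x + 2) * 1) / (id x) ^ 2 := by
    simp only [id]
    field_simp
    ring
  rw [e]
  exact h3

lemma FF_nonneg {x : ℝ} (hx : 1 ≤ x) : 0 ≤ FF x := by
  have := Real.log_nonneg hx
  unfold FF
  positivity

lemma logdiv_antitone {x y : ℝ} (hx : Real.exp 1 ≤ x) (hxy : x ≤ y) :
    Real.log y / y ≤ Real.log x / x :=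
  Real.log_div_self_antitoneOn hx (hx.trans hxy) hxy

lemma step_FF {n : ℕ} (hn : 4 ≤ n) : (Real.log n / n) ^ 2 ≤ FF ((n : ℝ) - 1) - FF n := by
  have hn' : (4 : ℝ) ≤ n := by exact_mod_cast hn
  have hlt : (n : ℝ) - 1 < n := by linarith
  obtain ⟨c, hc, he⟩ := exists_hasDerivAt_eq_slope FF (fun x => -(Real.log x / x) ^ 2) hlt
    (fun x hx => (hasDerivAt_FF (by linarith [hx.1])).continuousAt.continuousWithinAt)
    (fun x hx => hasDerivAt_FF (by linarith [hx.1]))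
  have h1 : FF n - FF ((n : ℝ) - 1) = -(Real.log c / c) ^ 2 := by
    rw [he]
    have : (n : ℝ) - ((n : ℝ) - 1) = 1 := by ring
    rw [this, div_one]
  have he1 : Real.exp 1 < 3 := by
    have := Real.exp_one_lt_d9
    linarith
  have h2 : Real.log n / n ≤ Real.log c / c :=
    logdiv_antitone (by linarith [hc.1]) hc.2.le
  have h3 : 0 ≤ Real.log n / n := div_nonneg (Real.log_natCast_nonneg n) (by positivity)
  have h4 : (Real.log n / n) ^ 2 ≤ (Real.log c / c) ^ 2 := pow_le_pow_left₀ h3 h2 2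
  linarith

lemma sum_FF {N : ℕ} (hN : 4 ≤ N) (k : ℕ) :
    ∑ i ∈ range k, (Real.log ((N + i : ℕ) : ℝ) / ((N + i : ℕ) : ℝ)) ^ 2 ≤ FF ((N : ℝ) - 1) := by
  have h : ∀ k : ℕ, ∑ i ∈ range k, (Real.log ((N + i : ℕ) : ℝ) / ((N + i : ℕ) : ℝ)) ^ 2 ≤
      FF ((N : ℝ) - 1) - FF (((N + k : ℕ) : ℝ) - 1) := by
    intro k
    induction k with
    | zero => simp
    | succ k ih =>
      rw [sum_range_succ]
      have h1 := step_FF (n := N + k) (by omega)
      have h2 : (((N + (k + 1) : ℕ) : ℝ) - 1) = ((N + k : ℕ) : ℝ) := by push_cast; ring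
      rw [h2]
      linarith
  have h1 := h k
  have h2 : 0 ≤ FF (((N + k : ℕ) : ℝ) - 1) := FF_nonneg (by
    have : (4 : ℝ) ≤ ((N + k : ℕ) : ℝ) := by exact_mod_cast (by omega : 4 ≤ N + k)
    linarith)
  linarith

lemma FF_le {N : ℕ} (hN : 4 ≤ N) : FF ((N : ℝ) - 1) ≤ 8 * ((Real.log N) ^ 2 / N) := by
  have hN' : (4 : ℝ) ≤ N := by exact_mod_cast hN
  have h1 : 1 ≤ Real.log N := by
    have h2 : Real.exp 1 ≤ N := by
      have := Real.exp_one_lt_d9
      linarith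
    rw [Real.le_log_iff_exp_le (by linarith)]
    exact h2
  have h2 : Real.log ((N : ℝ) - 1) ≤ Real.log N := Real.log_le_log (by linarith) (by linarith)
  have h3 : 0 ≤ Real.log ((N : ℝ) - 1) := Real.log_nonneg (by linarith)
  unfold FF
  rw [div_le_iff₀ (by linarith)]
  have h4 : 8 * ((Real.log N) ^ 2 / N) * ((N : ℝ) - 1) = 8 * (Real.log N) ^ 2 * (((N : ℝ) - 1) / N) := by
    field_simp
  have h5 : (3 : ℝ) / 4 ≤ ((N : ℝ) - 1) / N := by
    rw [le_div_iff₀ (by linarith)]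
    linarith
  rw [h4]
  have h6 : 8 * (Real.log N) ^ 2 * (3 / 4) ≤ 8 * (Real.log N) ^ 2 * (((N : ℝ) - 1) / N) :=
    mul_le_mul_of_nonneg_left h5 (by positivity)
  nlinarith

/-! ### the events -/

/-- both values at the index `n` have a prime `n`-rough part -/
def Ev (α s : ℝ) (g g2 : ℕ → ℝ) (n : ℕ) : Set ℝ :=
  {t | (roughPart n (NN (ysh α g n t))).Prime ∧ (roughPart n (NN (ysh α g2 n (t + s)))).Prime}

lemma measurableSet_Ev (α s : ℝ) (g g2 : ℕ → ℝ) (n : ℕ) : MeasurableSet (Ev α s g g2 n) := by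
  have h : ∀ f : ℝ → ℝ, Measurable f → MeasurableSet {t | (roughPart n (NN (f t))).Prime} := by
    intro f hf
    have h1 : {t | (roughPart n (NN (f t))).Prime} =
        (fun t => NN (f t)) ⁻¹' {N : ℕ | (roughPart n N).Prime} := rfl
    rw [h1]
    exact (measurable_NN.comp hf) (MeasurableSet.of_discrete)
  exact (h _ (measurable_ysh _ _ _)).inter (h _ ((measurable_ysh _ _ _).comp (measurable_id.add_const s)))

lemma volume_Ev {α s : ℝ} {g g2 : ℕ → ℝ} {n : ℕ} {b0 c : ℝ}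
    (h : ∫ t in Set.Ioc b0 (b0 + 1), ff n (ysh α g n t) * ff n (ysh α g2 n (t + s)) ≤ c) :
    volume (Ev α s g g2 n ∩ Set.Ioc b0 (b0 + 1)) ≤ ENNReal.ofReal c := by
  classical
  have hE := measurableSet_Ev α s g g2 n
  have h1 : ∀ t, ff n (ysh α g n t) * ff n (ysh α g2 n (t + s)) =
      (Ev α s g g2 n).indicator (fun _ => (1 : ℝ)) t := by
    intro t
    unfold ff
    by_cases h1 : (roughPart n (NN (ysh α g n t))).Prime
    · by_cases h2 : (roughPart n (NN (ysh α g2 n (t + s)))).Prime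
      · rw [if_pos h1, if_pos h2, Set.indicator_of_mem (show t ∈ Ev α s g g2 n from ⟨h1, h2⟩), mul_one]
      · rw [if_neg h2, mul_zero, Set.indicator_of_notMem (fun h : t ∈ Ev α s g g2 n => h2 h.2)]
    · rw [if_neg h1, zero_mul, Set.indicator_of_notMem (fun h : t ∈ Ev α s g g2 n => h1 h.1)]
  simp only [h1] at h
  rw [integral_indicator hE, setIntegral_const, smul_eq_mul, mul_one, measureReal_restrict_apply hE] at h
  have h2 : volume (Ev α s g g2 n ∩ Set.Ioc b0 (b0 + 1)) ≠ ⊤ :=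
    ((measure_mono Set.inter_subset_right).trans_lt (by simp)).ne
  rw [← ENNReal.ofReal_toReal h2]
  exact ENNReal.ofReal_le_ofReal h

/-- **The tail bound.** -/
theorem tail {α κ C A ρ : ℝ} (hα : 1 < α) (hκ0 : 0 ≤ κ) (hκ : κ < α) {g g2 : ℕ → ℝ}
    (hg : ∀ p, |g p| ≤ C * κ ^ p) (hg2 : ∀ p, |g2 p| ≤ C * κ ^ p) (hA : 1 ≤ A) (hρ : 1 ≤ ρ)
    (hdio : ∀ a b : ℕ, 1 ≤ a → 1 ≤ b → 1 ≤ |(a : ℝ) - b * ρ| * (A * (a + b)))
    (b0 : ℝ) : ∃ K : ℝ, 0 < K ∧ ∃ P : ℕ, ∀ N ≥ P,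
      volume ((⋃ i : ℕ, Ev α (Real.log ρ) g g2 (N + i)) ∩ Set.Ioc b0 (b0 + 1)) ≤
        ENNReal.ofReal (K * ((Real.log N) ^ 2 / N)) := by
  obtain ⟨K, hK, P, hP⟩ := same_pair hα hκ0 hκ hg hg2 hA hρ hdio b0
  refine ⟨8 * K, by positivity, max P 4, fun N hN => ?_⟩
  have hNP : P ≤ N := (le_max_left _ _).trans hN
  have hN4 : 4 ≤ N := (le_max_right _ _).trans hN
  rw [Set.iUnion_inter]
  refine (measure_iUnion_le _).trans ?_
  have h1 : ∀ i : ℕ, volume (Ev α (Real.log ρ) g g2 (N + i) ∩ Set.Ioc b0 (b0 + 1)) ≤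
      ENNReal.ofReal (K * (Real.log ((N + i : ℕ) : ℝ) / ((N + i : ℕ) : ℝ)) ^ 2) :=
    fun i => volume_Ev (hP (N + i) (by omega))
  refine (ENNReal.tsum_le_tsum h1).trans ?_
  refine ENNReal.tsum_le_of_sum_range_le fun k => ?_
  rw [← ENNReal.ofReal_sum_of_nonneg (fun i _ => by positivity)]
  refine ENNReal.ofReal_le_ofReal ?_
  rw [← mul_sum]
  calc K * ∑ i ∈ range k, (Real.log ((N + i : ℕ) : ℝ) / ((N + i : ℕ) : ℝ)) ^ 2 ≤
      K * (8 * ((Real.log N) ^ 2 / N)) :=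
        mul_le_mul_of_nonneg_left ((sum_FF hN4 k).trans (FF_le hN4)) hK.le
    _ = _ := by ring

lemma tendsto_logsq : Tendsto (fun N : ℕ => (Real.log N) ^ 2 / (N : ℝ)) atTop (𝓝 0) := by
  have h := (isLittleO_log_rpow_atTop (r := 1 / 2) (by norm_num)).comp_tendsto
    tendsto_natCast_atTop_atTop
  have h1 := h.pow (n := 2) (by norm_num)
  have h2 := h1.tendsto_div_nhds_zero
  refine h2.congr' ?_
  filter_upwards [eventually_ge_atTop 1] with N hN
  simp only [Function.comp]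
  congr 1
  rw [← Real.rpow_natCast, ← Real.rpow_mul (Nat.cast_nonneg N)]
  norm_num

/-- almost every `t` is in finitely many of the events -/
theorem ae_fin {α κ C A ρ : ℝ} (hα : 1 < α) (hκ0 : 0 ≤ κ) (hκ : κ < α) {g g2 : ℕ → ℝ}
    (hg : ∀ p, |g p| ≤ C * κ ^ p) (hg2 : ∀ p, |g2 p| ≤ C * κ ^ p) (hA : 1 ≤ A) (hρ : 1 ≤ ρ)
    (hdio : ∀ a b : ℕ, 1 ≤ a → 1 ≤ b → 1 ≤ |(a : ℝ) - b * ρ| * (A * (a + b))) :
    ∀ᵐ t : ℝ, ∃ P : ℕ, ∀ n ≥ P, t ∉ Ev α (Real.log ρ) g g2 n := by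
  refine ae_windows fun b0 => ?_
  obtain ⟨K, hK, P, hP⟩ := tail hα hκ0 hκ hg hg2 hA hρ hdio b0
  rw [ae_restrict_iff' measurableSet_Ioc, ae_iff]
  set Z : Set ℝ := {t | ¬ (t ∈ Set.Ioc b0 (b0 + 1) → ∃ P : ℕ, ∀ n ≥ P, t ∉ Ev α (Real.log ρ) g g2 n)} with hZ
  have h1 : ∀ N ≥ P, volume Z ≤ ENNReal.ofReal (K * ((Real.log N) ^ 2 / N)) := by
    intro N hN
    refine (measure_mono ?_).trans (hP N hN)
    intro t ht
    rw [hZ, Set.mem_ofPred_eq] at ht
    push Not at ht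
    obtain ⟨ht1, ht2⟩ := ht
    obtain ⟨n, hn, ht3⟩ := ht2 N
    refine ⟨Set.mem_iUnion.2 ⟨n - N, ?_⟩, ht1⟩
    rw [show N + (n - N) = n by omega]
    exact ht3
  have h2 : Tendsto (fun N : ℕ => ENNReal.ofReal (K * ((Real.log N) ^ 2 / N))) atTop (𝓝 0) := by
    have h3 := (tendsto_logsq.const_mul K)
    rw [mul_zero] at h3
    have h4 := ENNReal.tendsto_ofReal h3
    rwa [ENNReal.ofReal_zero] at h4
  have h3 : volume Z ≤ 0 := ge_of_tendsto h2 (eventually_atTop.2 ⟨P, h1⟩)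
  exact le_antisymm h3 bot_le

/-- the sequences of values are almost never integral -/
lemma ae_not_int {α s : ℝ} (hα : 0 < α) (g : ℕ → ℝ) :
    ∀ᵐ t : ℝ, ∀ p m : ℕ, Real.exp (t + s) * α ^ p + g p ≠ m := by
  have hnull : volume (⋃ p : ℕ, ⋃ m : ℕ, {t : ℝ | Real.exp (t + s) * α ^ p + g p = m}) = 0 := by
    refine Set.Countable.measure_zero ?_ volume
    refine Set.countable_iUnion fun p => Set.countable_iUnion fun m => ?_
    refine Set.Subsingleton.countable ?_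
    intro x hx y hy
    simp only [Set.mem_ofPred_eq] at hx hy
    have h3 : Real.exp (x + s) * α ^ p = Real.exp (y + s) * α ^ p := by linarith
    have h4 := Real.exp_injective (mul_right_cancel₀ (pow_pos hα p).ne' h3)
    linarith
  have hae : ∀ᵐ t : ℝ, t ∉ ⋃ p : ℕ, ⋃ m : ℕ, {t : ℝ | Real.exp (t + s) * α ^ p + g p = m} := by
    rw [ae_iff]
    refine measure_mono_null (fun t ht => ?_) hnull
    simpa only [Set.mem_ofPred_eq, not_not] using ht
  filter_upwards [hae] with t ht p m hm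
  refine ht ?_
  simp only [Set.mem_iUnion]
  exact ⟨p, m, hm⟩

/-- from the largest integer below to the integer part -/
lemma floor_of {α s : ℝ} (hα : 0 < α) {g : ℕ → ℝ} {a0 t : ℝ} (ht : a0 ≤ t + s)
    (hn : ∀ p m : ℕ, Real.exp (t + s) * α ^ p + g p ≠ m) {p : ℕ}
    (hp : ((8 : ℕ) : ℝ) * |g p| ≤ Real.exp (Real.log α * p + a0)) :
    NN (ysh α g p (t + s)) = ⌊Real.exp (t + s) * α ^ p + g p⌋₊ := by
  have h := exp_ysh hα hp ht
  unfold NN
  rw [h.1]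
  have hv := h.2.1
  have h2 : ⌈Real.exp (t + s) * α ^ p + g p⌉₊ = ⌊Real.exp (t + s) * α ^ p + g p⌋₊ + 1 := by
    rw [Nat.ceil_eq_iff (Nat.succ_ne_zero _)]
    constructor
    · rw [Nat.succ_sub_one]
      exact lt_of_le_of_ne (Nat.floor_le hv.le) fun h => hn _ _ h.symm
    · exact_mod_cast (Nat.lt_floor_add_one _).le
  rw [h2, Nat.add_sub_cancel]

/-- **Both rough parts are prime for finitely many indices only.** -/
theorem ae_not_both {α κ C A ρ : ℝ} (hα : 1 < α) (hκ0 : 0 ≤ κ) (hκ : κ < α) {g g2 : ℕ → ℝ}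
    (hg : ∀ p, |g p| ≤ C * κ ^ p) (hg2 : ∀ p, |g2 p| ≤ C * κ ^ p) (hA : 1 ≤ A) (hρ : 1 ≤ ρ)
    (hdio : ∀ a b : ℕ, 1 ≤ a → 1 ≤ b → 1 ≤ |(a : ℝ) - b * ρ| * (A * (a + b))) :
    ∀ᵐ β : ℝ, 0 < β → {n : ℕ | (roughPart n ⌊β * α ^ n + g n⌋₊).Prime ∧
      (roughPart n ⌊β * ρ * α ^ n + g2 n⌋₊).Prime}.Finite := by
  have hα0 : 0 < α := by linarith
  have hρ0 : 0 < ρ := by linarith
  refine ae_of_exp' (P := fun β : ℝ => {n : ℕ | (roughPart n ⌊β * α ^ n + g n⌋₊).Prime ∧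
      (roughPart n ⌊β * ρ * α ^ n + g2 n⌋₊).Prime}.Finite) ?_
  filter_upwards [ae_fin hα hκ0 hκ hg hg2 hA hρ hdio, ae_not_int (s := 0) hα0 g,
    ae_not_int (s := Real.log ρ) hα0 g2] with t ht h1 h2
  obtain ⟨P, hP⟩ := ht
  obtain ⟨P1, hP1⟩ := eventually_atTop.1 (pert8 hα0 hκ0 hκ hg t 8)
  obtain ⟨P2, hP2⟩ := eventually_atTop.1 (pert8 hα0 hκ0 hκ hg2 (t + Real.log ρ) 8)
  refine (Set.finite_lt_nat (max P (max P1 P2))).subset ?_
  rintro n ⟨hn1, hn2⟩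
  by_contra hc
  rw [Set.mem_ofPred_eq, not_lt] at hc
  refine hP n ((le_max_left _ _).trans hc) ⟨?_, ?_⟩
  · have h3 := floor_of (s := 0) hα0 (g := g) (a0 := t) (t := t) (by linarith) h1
      (hP1 n ((le_max_left _ _).trans ((le_max_right _ _).trans hc)))
    rw [add_zero] at h3
    rw [h3]
    exact hn1
  · have h3 := floor_of (s := Real.log ρ) hα0 (g := g2) (a0 := t + Real.log ρ) (t := t) le_rfl h2
      (hP2 n ((le_max_right _ _).trans ((le_max_right _ _).trans hc)))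
    rw [h3, Real.exp_add, Real.exp_log hρ0]
    exact hn2

end Pool.Agent.U606.PL
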