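import Mathlib
import Pool.Agent.U606.PL.Ae
import Pool.Agent.TH888.R.Asy

set_option autoImplicit false

/-!
# Stability of the integer parts, and the union of two families
-/

namespace Pool.Agent.U606.PL

open Finset MeasureTheory Filter Topology
open Pool.Agent.H305R2 (roughPart)
open Pool.Agent.TH888.R (ae_windows cS Pt VS gr one_le_gr loglog_nonneg VS_nonneg)

/-! ### the distance to the integers -/

/-- the points of the window which are close to an integer after multiplication by `a` -/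
lemma volume_near {a ε b0 : ℝ} (ha : 1 ≤ a) (hε : 0 ≤ ε) :
    volume ({x : ℝ | ∃ m : ℤ, |x * a - m| < ε} ∩ Set.Ioc b0 (b0 + 1)) ≤
      ENNReal.ofReal (2 * ε * (6 + 2 * ε)) := by
  have ha0 : 0 < a := by linarith
  set I : Finset ℤ := Finset.Icc ⌊b0 * a - ε⌋ ⌈(b0 + 1) * a + ε⌉ with hI
  have hsub : {x : ℝ | ∃ m : ℤ, |x * a - m| < ε} ∩ Set.Ioc b0 (b0 + 1) ⊆
      ⋃ m ∈ I, Set.Icc (((m : ℝ) - ε) / a) (((m : ℝ) + ε) / a) := by
    rintro x ⟨⟨m, hm⟩, hx⟩
    rw [abs_lt] at hm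
    have h1 : b0 * a ≤ x * a := mul_le_mul_of_nonneg_right hx.1.le ha0.le
    have h2 : x * a ≤ (b0 + 1) * a := mul_le_mul_of_nonneg_right hx.2 ha0.le
    rw [Set.mem_iUnion₂]
    refine ⟨m, ?_, ?_⟩
    · rw [hI, Finset.mem_Icc]
      constructor
      · have h3 : ((⌊b0 * a - ε⌋ : ℤ) : ℝ) ≤ m := by
          have := Int.floor_le (b0 * a - ε)
          linarith [hm.1, hm.2]
        exact_mod_cast h3
      · have h3 : (m : ℝ) ≤ ((⌈(b0 + 1) * a + ε⌉ : ℤ) : ℝ) := by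
          have := Int.le_ceil ((b0 + 1) * a + ε)
          linarith [hm.1, hm.2]
        exact_mod_cast h3
    · rw [Set.mem_Icc, div_le_iff₀ ha0, le_div_iff₀ ha0]
      constructor <;> linarith [hm.1, hm.2]
  have hcard : (I.card : ℝ) ≤ a + 2 * ε + 3 := by
    rw [hI, Int.card_Icc]
    have h1 := Int.lt_floor_add_one (b0 * a - ε)
    have h2 := Int.ceil_lt_add_one ((b0 + 1) * a + ε)
    have h3 : (((⌈(b0 + 1) * a + ε⌉ + 1 - ⌊b0 * a - ε⌋).toNat : ℕ) : ℝ) ≤
        max ((⌈(b0 + 1) * a + ε⌉ : ℝ) + 1 - ⌊b0 * a - ε⌋) 0 := by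
      have h4 : (((⌈(b0 + 1) * a + ε⌉ + 1 - ⌊b0 * a - ε⌋).toNat : ℤ)) =
          max (⌈(b0 + 1) * a + ε⌉ + 1 - ⌊b0 * a - ε⌋) 0 := Int.toNat_eq_max _
      have h5 : ((((⌈(b0 + 1) * a + ε⌉ + 1 - ⌊b0 * a - ε⌋).toNat : ℤ)) : ℝ) =
          ((max (⌈(b0 + 1) * a + ε⌉ + 1 - ⌊b0 * a - ε⌋) 0 : ℤ) : ℝ) := by rw [h4]
      push_cast at h5
      rw [← h5]
    refine h3.trans (max_le ?_ (by linarith))
    linarith
  refine (measure_mono hsub).trans ((measure_biUnion_finset_le _ _).trans ?_)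
  have h1 : ∀ m ∈ I, volume (Set.Icc (((m : ℝ) - ε) / a) (((m : ℝ) + ε) / a)) =
      ENNReal.ofReal (2 * ε / a) := by
    intro m _
    rw [Real.volume_Icc]
    congr 1
    field_simp
    ring
  rw [Finset.sum_congr rfl h1, Finset.sum_const, nsmul_eq_mul, ← ENNReal.ofReal_natCast,
    ← ENNReal.ofReal_mul (Nat.cast_nonneg _)]
  refine ENNReal.ofReal_le_ofReal ?_
  have h2 : (a + 2 * ε + 3) * (2 * ε / a) ≤ 2 * ε * (6 + 2 * ε) := by
    rw [mul_div_assoc', div_le_iff₀ ha0]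
    have h3 : 0 ≤ 2 * ε * (a - 1) * (3 + 2 * ε) := by
      have : 0 ≤ a - 1 := by linarith
      positivity
    nlinarith
  exact (mul_le_mul_of_nonneg_right hcard (by positivity)).trans h2

/-- almost every orbit stays away from the integers -/
theorem ae_far {α : ℝ} (hα : 1 < α) :
    ∀ᵐ x : ℝ, ∃ N : ℕ, ∀ n ≥ N, ∀ m : ℤ, 1 / ((n : ℝ) + 1) ^ 2 ≤ |x * α ^ n - m| := by
  refine ae_windows fun b0 => ?_
  rw [ae_restrict_iff' measurableSet_Ioc]
  set s : ℕ → Set ℝ := fun n => {x : ℝ | ∃ m : ℤ, |x * α ^ n - m| < 1 / ((n : ℝ) + 1) ^ 2} ∩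
    Set.Ioc b0 (b0 + 1) with hs
  have hb : ∀ n, volume (s n) ≤ ENNReal.ofReal (16 * (1 / ((n : ℝ) + 1) ^ 2)) := by
    intro n
    have he0 : (0 : ℝ) ≤ 1 / ((n : ℝ) + 1) ^ 2 := by positivity
    have he1 : 1 / ((n : ℝ) + 1) ^ 2 ≤ 1 := by
      rw [div_le_one (by positivity)]
      have : (0 : ℝ) ≤ n := Nat.cast_nonneg n
      nlinarith
    refine (volume_near (one_le_pow₀ hα.le) he0).trans (ENNReal.ofReal_le_ofReal ?_)
    nlinarith
  have hsum : ∑' n, volume (s n) ≠ ⊤ := by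
    have h1 : Summable fun n : ℕ => 16 * (1 / ((n : ℝ) + 1) ^ 2) := by
      have h2 : Summable fun n : ℕ => 1 / ((n : ℝ) ^ 2) :=
        Real.summable_one_div_nat_pow.2 (by norm_num)
      have h3 := (summable_nat_add_iff 1).2 h2
      simp only [Nat.cast_add, Nat.cast_one] at h3
      exact h3.mul_left 16
    refine ne_top_of_le_ne_top ?_ (ENNReal.tsum_le_tsum hb)
    rw [← ENNReal.ofReal_tsum_of_nonneg (fun n => by positivity) h1]
    exact ENNReal.ofReal_ne_top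
  have h := ae_eventually_notMem hsum
  filter_upwards [h] with x hx hxI
  obtain ⟨N, hN⟩ := eventually_atTop.1 hx
  refine ⟨N, fun n hn m => ?_⟩
  by_contra hc
  push Not at hc
  exact hN n hn ⟨⟨m, hc⟩, hxI⟩

/-- almost every statement is invariant under scaling -/
lemma ae_scale {P : ℝ → Prop} (h : ∀ᵐ x : ℝ, P x) {c : ℝ} (hc : c ≠ 0) : ∀ᵐ x : ℝ, P (c * x) := by
  have hq : Measure.QuasiMeasurePreserving (fun x : ℝ => c * x) volume volume :=
    ⟨measurable_const_mul c, by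
      rw [Real.map_volume_mul_left hc]
      exact Measure.smul_absolutelyContinuous⟩
  exact hq.ae h

/-- a small perturbation does not change the integer part -/
lemma floor_stable {x δ ε : ℝ} (hx : 0 ≤ x) (h : ∀ m : ℤ, ε ≤ |x - m|) (hδ : |δ| < ε) :
    ⌊x + δ⌋₊ = ⌊x⌋₊ := by
  have h1 := Nat.floor_le hx
  have h2 := Nat.lt_floor_add_one x
  have h3 := h ((⌊x⌋₊ : ℕ) : ℤ)
  have h4 := h (((⌊x⌋₊ : ℕ) : ℤ) + 1)
  push_cast at h3 h4
  rw [abs_of_nonneg (by linarith)] at h3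
  rw [abs_of_neg (by linarith)] at h4
  have h5 := abs_lt.1 hδ
  have h6 : 0 ≤ x + δ := by
    have : (0 : ℝ) ≤ (⌊x⌋₊ : ℝ) := Nat.cast_nonneg _
    linarith
  rw [Nat.floor_eq_iff h6]
  constructor <;> linarith

/-- a geometric sequence is eventually smaller than `1 / (n + 1) ^ 2` -/
lemma small_geom {κ : ℝ} (hκ : |κ| < 1) (B : ℝ) :
    ∀ᶠ n : ℕ in atTop, |B * κ ^ n| < 1 / ((n : ℝ) + 1) ^ 2 := by
  have h1 : Tendsto (fun n : ℕ => (n : ℝ) ^ 2 * |κ| ^ n) atTop (𝓝 0) :=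
    tendsto_pow_const_mul_const_pow_of_lt_one 2 (abs_nonneg _) hκ
  have h2 : Tendsto (fun n : ℕ => |B| * 4 * ((n : ℝ) ^ 2 * |κ| ^ n)) atTop (𝓝 0) := by
    simpa using h1.const_mul (|B| * 4)
  filter_upwards [h2.eventually (gt_mem_nhds one_pos), eventually_ge_atTop 1] with n hn hn1
  have hn1' : (1 : ℝ) ≤ n := by exact_mod_cast hn1
  rw [lt_div_iff₀ (by positivity), abs_mul, abs_pow]
  have h3 : ((n : ℝ) + 1) ^ 2 ≤ 4 * (n : ℝ) ^ 2 := by nlinarith
  calc |B| * |κ| ^ n * ((n : ℝ) + 1) ^ 2 ≤ |B| * |κ| ^ n * (4 * (n : ℝ) ^ 2) :=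
        mul_le_mul_of_nonneg_left h3 (by positivity)
    _ = |B| * 4 * ((n : ℝ) ^ 2 * |κ| ^ n) := by ring
    _ < 1 := hn

/-- **The integer parts do not depend on the recessive solution.** -/
theorem floors {α κ : ℝ} (hα : 1 < α) (hκ : |κ| < 1) :
    ∀ᵐ β : ℝ, 0 < β → ∀ B : ℝ, ∃ N : ℕ, ∀ n ≥ N, ⌊β * α ^ n + B * κ ^ n⌋₊ = ⌊β * α ^ n⌋₊ := by
  filter_upwards [ae_far hα] with β hβ h0 B
  obtain ⟨N, hN⟩ := hβ
  obtain ⟨M, hM⟩ := eventually_atTop.1 (small_geom hκ B)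
  refine ⟨max N M, fun n hn => ?_⟩
  exact floor_stable (by positivity) (hN n ((le_max_left _ _).trans hn))
    (hM n ((le_max_right _ _).trans hn))

/-! ### sequences which agree from some index on -/

open Classical in
lemma cS_congr {s s' : ℕ → ℕ} {N : ℕ} (h : ∀ n ≥ N, s n = s' n) (S : Set ℕ) (n : ℕ) :
    (cS S s n : ℝ) ≤ cS S s' n + N := by
  unfold cS
  have h1 : (range (n + 1)).filter (fun p => p.Prime ∧ p ∈ S ∧ (roughPart p (s p)).Prime) ⊆
      (range (n + 1)).filter (fun p => p.Prime ∧ p ∈ S ∧ (roughPart p (s' p)).Prime) ∪ range N := by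
    intro p hp
    rw [mem_filter] at hp
    rw [mem_union, mem_filter]
    by_cases hpN : N ≤ p
    · rw [h p hpN] at hp
      exact Or.inl hp
    · exact Or.inr (mem_range.2 (not_le.1 hpN))
  have h2 := (card_le_card h1).trans (card_union_le _ _)
  rw [card_range] at h2
  exact_mod_cast h2

/-- the law and the dichotomy only depend on the tail of the sequence -/
theorem pt_congr {s s' : ℕ → ℕ} {c : ℝ} {S : Set ℕ} (h : Pt s c S) {N : ℕ}
    (he : ∀ n ≥ N, s' n = s n) : Pt s' c S := by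
  have hset : ∀ p ≥ N, (p.Prime ∧ p ∈ S ∧ (roughPart p (s' p)).Prime) ↔
      (p.Prime ∧ p ∈ S ∧ (roughPart p (s p)).Prime) := fun p hp => by rw [he p hp]
  refine ⟨fun hV => ?_, fun hV hfin => ?_, fun hV => ?_⟩
  · obtain ⟨B, hB, hl⟩ := h.law hV
    refine ⟨B + N, by positivity, fun n hn => ?_⟩
    have h1 := hl n hn
    have h2 := cS_congr he S n
    have h3 := cS_congr (fun n hn => (he n hn).symm) S n
    have h4 : 1 ≤ gr (VS S n * (1 + Real.log (Real.log n))) := by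
      refine one_le_gr ?_
      have := loglog_nonneg hn
      have := VS_nonneg S n
      positivity
    have h5 : (N : ℝ) ≤ N * gr (VS S n * (1 + Real.log (Real.log n))) := by
      have : (0 : ℝ) ≤ N := Nat.cast_nonneg N
      nlinarith
    rw [abs_le] at h1 ⊢
    constructor <;> nlinarith [h1.1, h1.2]
  · refine h.inf hV (((hfin.union (Set.finite_lt_nat N))).subset fun p hp => ?_)
    by_cases hpN : N ≤ p
    · exact Or.inl ((hset p hpN).2 hp)
    · exact Or.inr (not_le.1 hpN)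
  · refine (((h.fin hV).union (Set.finite_lt_nat N))).subset fun p hp => ?_
    by_cases hpN : N ≤ p
    · exact Or.inl ((hset p hpN).1 hp)
    · exact Or.inr (not_le.1 hpN)

/-! ### at least one of two values -/

open Classical in
/-- the number of primes `p ≤ n` in `S` for which the `p`-rough part of `s p` or that of `s' p` is a
prime -/
noncomputable def cU (S : Set ℕ) (s s' : ℕ → ℕ) (n : ℕ) : ℕ :=
  ((range (n + 1)).filter (fun p => p.Prime ∧ p ∈ S ∧
    ((roughPart p (s p)).Prime ∨ (roughPart p (s' p)).Prime))).card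

open Classical in
lemma cU_near {s s' : ℕ → ℕ} {N : ℕ}
    (h : ∀ p ≥ N, ¬ ((roughPart p (s p)).Prime ∧ (roughPart p (s' p)).Prime)) (S : Set ℕ) (n : ℕ) :
    |(cU S s s' n : ℝ) - (cS S s n + cS S s' n)| ≤ N := by
  unfold cU cS
  set A := (range (n + 1)).filter (fun p => p.Prime ∧ p ∈ S ∧ (roughPart p (s p)).Prime) with hA
  set B := (range (n + 1)).filter (fun p => p.Prime ∧ p ∈ S ∧ (roughPart p (s' p)).Prime) with hB
  have e : (range (n + 1)).filter (fun p => p.Prime ∧ p ∈ S ∧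
    ((roughPart p (s p)).Prime ∨ (roughPart p (s' p)).Prime)) = A ∪ B := by
    ext p
    simp only [hA, hB, mem_filter, mem_union]
    tauto
  rw [e]
  have h1 : (A ∩ B).card ≤ N := by
    calc (A ∩ B).card ≤ (range N).card := card_le_card fun p hp => by
          rw [mem_inter, hA, hB, mem_filter, mem_filter] at hp
          rw [mem_range]
          by_contra hc
          exact h p (not_lt.1 hc) ⟨hp.1.2.2.2, hp.2.2.2.2⟩
      _ = N := card_range N
  have h2 := card_union_add_card_inter A B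
  have h3 : ((A ∪ B).card : ℝ) + (A ∩ B).card = A.card + B.card := by exact_mod_cast h2
  have h4 : ((A ∩ B).card : ℝ) ≤ N := by exact_mod_cast h1
  have h5 : (0 : ℝ) ≤ ((A ∩ B).card : ℝ) := Nat.cast_nonneg _
  rw [abs_le]
  constructor <;> linarith

/-- the law for the union -/
theorem law_union {s s' : ℕ → ℕ} {c : ℝ} {S : Set ℕ} (hV : Tendsto (VS S) atTop atTop)
    (h : Pt s c S) (h' : Pt s' c S) {N : ℕ}
    (hN : ∀ p ≥ N, ¬ ((roughPart p (s p)).Prime ∧ (roughPart p (s' p)).Prime)) :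
    ∃ B : ℝ, 0 ≤ B ∧ ∀ n : ℕ, 3 ≤ n →
      |(cU S s s' n : ℝ) - 2 * c * VS S n| ≤ B * gr (VS S n * (1 + Real.log (Real.log n))) := by
  obtain ⟨B, hB, hl⟩ := h.law hV
  obtain ⟨B', hB', hl'⟩ := h'.law hV
  refine ⟨B + B' + N, by positivity, fun n hn => ?_⟩
  have h1 := hl n hn
  have h2 := hl' n hn
  have h3 := cU_near hN S n
  have h4 : 1 ≤ gr (VS S n * (1 + Real.log (Real.log n))) := by
    refine one_le_gr ?_
    have := loglog_nonneg hn
    have := VS_nonneg S n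
    positivity
  have h5 : (N : ℝ) ≤ N * gr (VS S n * (1 + Real.log (Real.log n))) := by
    have : (0 : ℝ) ≤ N := Nat.cast_nonneg N
    nlinarith
  rw [abs_le] at h1 h2 h3 ⊢
  constructor <;> nlinarith [h1.1, h1.2, h2.1, h2.2, h3.1, h3.2]

end Pool.Agent.U606.PL
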