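import Pool.Agent.W23.PL.Defs
import Pool.Agent.Helper256.KM.Mertens

/-! Project CP, package VLB: Mertens. -/

set_option autoImplicit false

namespace Pool.Agent.U606.PL

open Finset
open Pool.Agent.H442R2
open Pool.Agent.H442R2.KF
open Pool.Agent.W23.DC
open Pool.Agent.W23.PL

/-- `P1` as an interval of primes. -/
theorem P1_eq {N B : ℕ} (hN : 2 ≤ N) {ε₁ : ℝ} (hε1 : ε₁ ≤ 1)
    (hw : 0 < Real.log N ^ B) :
    P1 N B ε₁ = (Ioc (⌈Real.log N ^ B⌉₊ - 1) (⌈(N : ℝ) ^ ε₁⌉₊ - 1)).filter Nat.Prime := by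
  classical
  have hN1 : (1 : ℝ) < N := by exact_mod_cast (by omega : 1 < N)
  have hN0 : (0 : ℝ) < N := by linarith
  have hL : 0 < Real.log N := Real.log_pos hN1
  have hx : 0 < ⌈(N : ℝ) ^ ε₁⌉₊ := Nat.ceil_pos.2 (Real.rpow_pos_of_pos hN0 ε₁)
  have hy : 0 < ⌈Real.log N ^ B⌉₊ := Nat.ceil_pos.2 hw
  ext p
  unfold P1
  rw [Finset.mem_filter, Finset.mem_filter, Finset.mem_Icc, Finset.mem_Ioc]
  have h1 : p.Prime → (ε₁ ≤ tt N p ↔ (N : ℝ) ^ ε₁ ≤ p) := by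
    intro hp
    have hp0 : (0 : ℝ) < p := by exact_mod_cast hp.pos
    unfold tt
    rw [le_div_iff₀ hL, Real.rpow_def_of_pos hN0, ← Real.le_log_iff_exp_le hp0, mul_comm]
  constructor
  · rintro ⟨⟨h2, h3⟩, hp, h4, h5⟩
    refine ⟨⟨?_, ?_⟩, hp⟩
    · have h7 := Nat.ceil_le.2 h4
      omega
    · have h6 : ¬ (N : ℝ) ^ ε₁ ≤ p := fun h => absurd ((h1 hp).2 h) (not_le.2 h5)
      have h7 : ¬ ⌈(N : ℝ) ^ ε₁⌉₊ ≤ p := fun h => h6 (Nat.ceil_le.1 h)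
      omega
  · rintro ⟨⟨h2, h3⟩, hp⟩
    have h4 : ⌈Real.log N ^ B⌉₊ ≤ p := by omega
    have h5 : p < ⌈(N : ℝ) ^ ε₁⌉₊ := by omega
    have h6 : ¬ (N : ℝ) ^ ε₁ ≤ p := fun h => absurd (Nat.ceil_le.2 h) (not_le.2 h5)
    refine ⟨⟨hp.one_lt.le, ?_⟩, hp, Nat.ceil_le.1 h4, ?_⟩
    · have h7 : (N : ℝ) ^ ε₁ ≤ (N : ℝ) ^ (1 : ℝ) := Real.rpow_le_rpow_of_exponent_le hN1.le hε1
      rw [Real.rpow_one] at h7
      have h8 : (p : ℝ) < N := lt_of_lt_of_le (not_le.1 h6) h7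
      have h9 : p < N := by exact_mod_cast h8
      exact h9.le
    · exact not_le.1 fun h => h6 ((h1 hp).1 h)

/-- the integer below a real number, on the scale `log log` -/
theorem loglog_ceil {x : ℝ} (hx : 4 ≤ x) :
    3 ≤ ⌈x⌉₊ - 1 ∧ Real.log (Real.log ((⌈x⌉₊ - 1 : ℕ) : ℝ)) ≤ Real.log (Real.log x) ∧
    Real.log (Real.log x) ≤ Real.log (Real.log ((⌈x⌉₊ - 1 : ℕ) : ℝ)) + Real.log 2 := by
  have hc4 : 4 ≤ ⌈x⌉₊ := by
    have h1 : (4 : ℝ) ≤ (⌈x⌉₊ : ℝ) := hx.trans (Nat.le_ceil x)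
    exact_mod_cast h1
  obtain ⟨a, ha⟩ : ∃ a, ⌈x⌉₊ = a + 1 := ⟨⌈x⌉₊ - 1, by omega⟩
  have ha3 : 3 ≤ a := by omega
  rw [ha, Nat.add_sub_cancel]
  have ha3' : (3 : ℝ) ≤ a := by exact_mod_cast ha3
  have h1 : (a : ℝ) ≤ x := by
    by_contra h
    have h2 : ⌈x⌉₊ ≤ a := Nat.ceil_le.2 (not_le.1 h).le
    omega
  have h2 : x ≤ a + 1 := by
    have := Nat.le_ceil x
    rw [ha] at this
    push_cast at this
    exact this
  have hla : 0 < Real.log a := Real.log_pos (by linarith)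
  have hlx : 0 < Real.log x := Real.log_pos (by linarith)
  refine ⟨ha3, Real.log_le_log hla (Real.log_le_log (by linarith) h1), ?_⟩
  rw [← Real.log_mul hla.ne' (by norm_num)]
  apply Real.log_le_log hlx
  have h3 : x ≤ (a : ℝ) ^ 2 := by nlinarith
  calc Real.log x ≤ Real.log ((a : ℝ) ^ 2) := Real.log_le_log (by linarith) h3
    _ = Real.log a * 2 := by rw [Real.log_pow]; push_cast; ring

theorem log_lower {x : ℝ} (h0 : 0 ≤ x) (h : x ≤ 1 / 2) : -x - 2 * x ^ 2 ≤ Real.log (1 - x) := by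
  have h1 : 0 < 1 - x := by linarith
  refine le_trans ?_ (Real.one_sub_inv_le_log_of_pos h1)
  rw [le_sub_iff_add_le]
  have h2 : (1 - x)⁻¹ ≤ 1 + x + 2 * x ^ 2 := by
    rw [inv_le_iff_one_le_mul₀ h1]
    nlinarith [mul_nonneg (sq_nonneg x) (by linarith : (0 : ℝ) ≤ 1 - 2 * x)]
  linarith

/-- **VLB** -/
theorem VLB : St_VLB := by
  classical
  obtain ⟨C, hC⟩ := Pool.Agent.Helper256.KM.mertens_inv
  set C' : ℝ := 2 * C + Real.log 2 with hC'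
  refine ⟨Real.exp (-(C' + 1)), Real.exp_pos _, fun B hB ε₁ hε hε1 => ?_⟩
  have hB0 : (0 : ℝ) < B := by exact_mod_cast hB
  -- large `N`
  have hev : ∀ᶠ x : ℝ in Filter.atTop, 4 ≤ Real.log x ^ B ∧ Real.log x ^ B ≤ x ^ ε₁ ∧
      1 < Real.log x ∧ 2 ≤ x := by
    have e1 : Filter.Tendsto (fun x : ℝ => Real.log x ^ B) Filter.atTop Filter.atTop :=
      (Filter.tendsto_pow_atTop (by omega)).comp Real.tendsto_log_atTop
    have e2 := (isLittleO_log_rpow_rpow_atTop (B : ℝ) hε).bound (c := 1) one_pos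
    filter_upwards [e1.eventually_ge_atTop 4, e2, Real.tendsto_log_atTop.eventually_gt_atTop 1,
      Filter.eventually_ge_atTop 2] with x h1 h2 h3 h4
    refine ⟨h1, ?_, h3, h4⟩
    rw [Real.rpow_natCast, one_mul, Real.norm_of_nonneg (by linarith),
      Real.norm_of_nonneg (Real.rpow_nonneg (by linarith) _)] at h2
    exact h2
  obtain ⟨N₀, hN₀⟩ := Filter.eventually_atTop.1 (tendsto_natCast_atTop_atTop.eventually hev)
  refine ⟨N₀, fun N hN => ?_⟩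
  obtain ⟨h4w, hwv, hL1, hN2⟩ := hN₀ N hN
  have hN2' : 2 ≤ N := by exact_mod_cast hN2
  set w : ℝ := Real.log N ^ B with hw
  set v : ℝ := (N : ℝ) ^ ε₁ with hv
  have hN0 : (0 : ℝ) < N := by linarith
  obtain ⟨hW3, hW1, hW2⟩ := loglog_ceil h4w
  obtain ⟨hV3, hV1, hV2⟩ := loglog_ceil (h4w.trans hwv)
  have hWV : ⌈w⌉₊ - 1 ≤ ⌈v⌉₊ - 1 := Nat.sub_le_sub_right (Nat.ceil_mono hwv) 1
  set W := ⌈w⌉₊ - 1 with hWdef
  set V' := ⌈v⌉₊ - 1 with hVdef
  have hP : P1 N B ε₁ = (Ioc W V').filter Nat.Prime := P1_eq hN2' hε1 (by linarith)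
  -- the logarithms
  have hlw : Real.log (Real.log w) = Real.log (B * Real.log (Real.log N)) := by
    rw [hw, Real.log_pow]
  have hlv : Real.log (Real.log v) = Real.log (ε₁ * Real.log N) := by
    rw [hv, Real.log_rpow hN0]
  have hLL : 0 < Real.log (Real.log N) := Real.log_pos hL1
  have hL0 : 0 < Real.log N := by linarith
  -- the sum
  have hsum : |∑ p ∈ P1 N B ε₁, (1 : ℝ) / p - (Real.log (Real.log v) - Real.log (Real.log w))| ≤
      C' := by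
    have h1 := hC W hW3
    have h2 := hC V' hV3
    have h3 : ∑ p ∈ (Icc 1 V').filter Nat.Prime, (1 : ℝ) / p =
        ∑ p ∈ (Icc 1 W).filter Nat.Prime, (1 : ℝ) / p + ∑ p ∈ P1 N B ε₁, (1 : ℝ) / p := by
      rw [hP, ← Finset.sum_union]
      · congr 1
        ext p
        simp only [Finset.mem_filter, Finset.mem_union, Finset.mem_Icc, Finset.mem_Ioc]
        constructor
        · rintro ⟨⟨h4, h5⟩, h6⟩
          by_cases h7 : p ≤ W
          · exact Or.inl ⟨⟨h4, h7⟩, h6⟩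
          · exact Or.inr ⟨⟨by omega, h5⟩, h6⟩
        · rintro (⟨⟨h4, h5⟩, h6⟩ | ⟨⟨h4, h5⟩, h6⟩)
          · exact ⟨⟨h4, by omega⟩, h6⟩
          · exact ⟨⟨by omega, h5⟩, h6⟩
      · rw [Finset.disjoint_left]
        intro p h4 h5
        simp only [Finset.mem_filter, Finset.mem_Icc, Finset.mem_Ioc] at h4 h5
        omega
    rw [abs_le] at h1 h2 ⊢
    rw [h3] at h2
    constructor
    · rw [hC']; linarith [h1.1, h1.2, h2.1, h2.2]
    · rw [hC']; linarith [h1.1, h1.2, h2.1, h2.2]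
  have hX : Real.exp (-(Real.log (Real.log v) - Real.log (Real.log w))) =
      B * Real.log (Real.log N) / (ε₁ * Real.log N) := by
    rw [neg_sub, hlv, hlw, Real.exp_sub, Real.exp_log (by positivity), Real.exp_log (by positivity)]
  rw [abs_le] at hsum
  -- elements of `P`
  have hp2 : ∀ p ∈ P1 N B ε₁, (1 : ℝ) / p ≤ 1 / 2 ∧ 0 ≤ (1 : ℝ) / p := by
    intro p hp
    rw [hP, Finset.mem_filter] at hp
    have h1 : (2 : ℝ) ≤ p := by exact_mod_cast hp.2.two_le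
    exact ⟨one_div_le_one_div_of_le (by norm_num) h1, by positivity⟩
  have hsq : ∑ p ∈ P1 N B ε₁, 2 * ((1 : ℝ) / p) ^ 2 ≤ 1 := by
    have h1 : ∑ p ∈ P1 N B ε₁, 2 * ((1 : ℝ) / p) ^ 2 ≤
        ∑ p ∈ Ioc W V', 2 * ((1 : ℝ) / p) ^ 2 := by
      rw [hP]
      exact Finset.sum_le_sum_of_subset_of_nonneg (Finset.filter_subset _ _)
        (fun p _ _ => by positivity)
    have h2 := sum_Ioc_inv_sq_le_sub (α := ℝ) (by omega : W ≠ 0) hWV
    have h3 : ∑ p ∈ Ioc W V', 2 * ((1 : ℝ) / p) ^ 2 = 2 * ∑ p ∈ Ioc W V', ((p : ℝ) ^ 2)⁻¹ := by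
      rw [Finset.mul_sum]
      refine Finset.sum_congr rfl (fun p _ => ?_)
      rw [one_div, inv_pow]
    have h4 : ((W : ℕ) : ℝ)⁻¹ ≤ 3⁻¹ := by
      have : (3 : ℝ) ≤ W := by exact_mod_cast hW3
      exact inv_anti₀ (by norm_num) this
    have h5 : (0 : ℝ) ≤ ((V' : ℕ) : ℝ)⁻¹ := by positivity
    rw [h3] at h1
    linarith
  have hVVexp : VV (P1 N B ε₁) = Real.exp (∑ p ∈ P1 N B ε₁, Real.log (1 - 1 / (p : ℝ))) := by
    unfold VV
    rw [Real.exp_sum]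
    refine Finset.prod_congr rfl (fun p hp => ?_)
    rw [Real.exp_log]
    have := (hp2 p hp).1
    linarith
  have hup : ∑ p ∈ P1 N B ε₁, Real.log (1 - 1 / (p : ℝ)) ≤ -∑ p ∈ P1 N B ε₁, (1 : ℝ) / p := by
    rw [← Finset.sum_neg_distrib]
    refine Finset.sum_le_sum (fun p hp => ?_)
    have h1 := Real.log_le_sub_one_of_pos (show 0 < 1 - 1 / (p : ℝ) by
      have := (hp2 p hp).1
      linarith)
    linarith
  have hlow : -∑ p ∈ P1 N B ε₁, (1 : ℝ) / p - 1 ≤ ∑ p ∈ P1 N B ε₁, Real.log (1 - 1 / (p : ℝ)) := by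
    have h1 : ∑ p ∈ P1 N B ε₁, (-(1 / (p : ℝ)) - 2 * (1 / (p : ℝ)) ^ 2) ≤
        ∑ p ∈ P1 N B ε₁, Real.log (1 - 1 / (p : ℝ)) :=
      Finset.sum_le_sum (fun p hp => log_lower (hp2 p hp).2 (hp2 p hp).1)
    rw [Finset.sum_sub_distrib, Finset.sum_neg_distrib] at h1
    linarith
  rw [← hX, hVVexp]
  constructor
  · rw [← Real.exp_add]
    apply Real.exp_le_exp.2
    linarith [hsum.1, hsum.2]
  · rw [one_div, ← Real.exp_neg, ← Real.exp_add]
    apply Real.exp_le_exp.2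
    linarith [hsum.1, hsum.2]

end Pool.Agent.U606.PL
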